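import Pool.Agent.H37.KA.Fields

/-!
# Products of maximal minors: leading monomials

The variables are indexed by `Fin k × Fin n`. A maximal minor belongs to `c : Fin n → Fin k`; if `c` is strictly
increasing its leading form for the weight `φ α = ∑ α (j, i) j i` is the diagonal monomial `∏ X (c i, i)`. So the
polynomials of weight `m` in the `p`-th power of the ideal of the maximal minors have dimension at least the number
of monomials of weight `m` divisible by a product of `p` diagonals (`lead`).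
-/

set_option autoImplicit false
open MvPolynomial Finset
namespace Pool.Agent.H23.KB
open Pool.Agent.H47.KB (wt)
open Pool.Agent.H37.KA (minor minors good)
variable {k n : ℕ}
/-- The weight used to compare monomials. -/
noncomputable def kbPhi : (Fin k × Fin n →₀ ℕ) →+ ℕ :=
  Finsupp.weight (fun x : Fin k × Fin n => x.1.val * x.2.val)

lemma kbPhi_single (x : Fin k × Fin n) : kbPhi (Finsupp.single x 1) = x.1.val * x.2.val := by
  unfold kbPhi
  rw [Finsupp.weight_single, one_smul]

/-- `α` is the leading monomial of `P`, with coefficient one. -/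
def KbLead (P : MvPolynomial (Fin k × Fin n) ℂ) (α : Fin k × Fin n →₀ ℕ) : Prop :=
  coeff α P = 1 ∧ ∀ γ, coeff γ P ≠ 0 → γ ≠ α → kbPhi γ < kbPhi α

lemma KbLead.le {P : MvPolynomial (Fin k × Fin n) ℂ} {α γ : Fin k × Fin n →₀ ℕ} (h : KbLead P α)
    (hγ : coeff γ P ≠ 0) : kbPhi γ ≤ kbPhi α := by
  by_cases e : γ = α
  · rw [e]
  · exact (h.2 γ hγ e).le

lemma kbLead_monomial (α : Fin k × Fin n →₀ ℕ) : KbLead (monomial α (1 : ℂ)) α := by
  classical
  refine ⟨by rw [coeff_monomial, if_pos rfl], fun γ hγ hne => ?_⟩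
  rw [coeff_monomial, if_neg (fun h => hne h.symm)] at hγ
  exact absurd rfl hγ

lemma kb_eq_of_le {a b c d : ℕ} (h : a + b = c + d) (h1 : a ≤ c) (h2 : b ≤ d) : a = c ∧ b = d := by omega

lemma KbLead.eq_of {P Q : MvPolynomial (Fin k × Fin n) ℂ} {α β γ δ : Fin k × Fin n →₀ ℕ} (hP : KbLead P α)
    (hQ : KbLead Q β) (h1 : coeff γ P ≠ 0) (h2 : coeff δ Q ≠ 0)
    (h3 : kbPhi γ + kbPhi δ = kbPhi α + kbPhi β) : γ = α ∧ δ = β := by
  have h4 := kb_eq_of_le h3 (hP.le h1) (hQ.le h2)
  constructor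
  · by_contra h
    exact (hP.2 _ h1 h).ne h4.1
  · by_contra h
    exact (hQ.2 _ h2 h).ne h4.2

lemma kb_mem (α β : Fin k × Fin n →₀ ℕ) : (α, β) ∈ antidiagonal (α + β) := by
  rw [Finset.HasAntidiagonal.mem_antidiagonal]

lemma KbLead.mul_coeff {P Q : MvPolynomial (Fin k × Fin n) ℂ} {α β : Fin k × Fin n →₀ ℕ} (hP : KbLead P α)
    (hQ : KbLead Q β) : coeff (α + β) (P * Q) = 1 := by
  classical
  rw [coeff_mul, sum_eq_single (α, β)]
  · show coeff α P * coeff β Q = 1
    rw [hP.1, hQ.1, one_mul]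
  · intro x hx hne
    rw [Finset.HasAntidiagonal.mem_antidiagonal] at hx
    by_contra h0
    have h3 : kbPhi x.1 + kbPhi x.2 = kbPhi α + kbPhi β := by
      rw [← map_add kbPhi x.1 x.2, ← map_add kbPhi α β, hx]
    obtain ⟨h6, h7⟩ := hP.eq_of hQ (left_ne_zero_of_mul h0) (right_ne_zero_of_mul h0) h3
    exact hne (Prod.ext h6 h7)
  · intro h
    exact absurd (kb_mem α β) h

lemma kb_lt_of_le {a b c d : ℕ} (h : ¬ (a = c ∧ b = d)) (h1 : a ≤ c) (h2 : b ≤ d) : a + b < c + d := by
  omega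

lemma KbLead.mul {P Q : MvPolynomial (Fin k × Fin n) ℂ} {α β : Fin k × Fin n →₀ ℕ} (hP : KbLead P α)
    (hQ : KbLead Q β) : KbLead (P * Q) (α + β) := by
  classical
  refine ⟨hP.mul_coeff hQ, fun γ hγ hne => ?_⟩
  rw [coeff_mul] at hγ
  obtain ⟨x, hx, h0⟩ := exists_ne_zero_of_sum_ne_zero hγ
  rw [Finset.HasAntidiagonal.mem_antidiagonal] at hx
  have h1 : coeff x.1 P ≠ 0 := left_ne_zero_of_mul h0
  have h2 : coeff x.2 Q ≠ 0 := right_ne_zero_of_mul h0
  rw [← hx, map_add kbPhi x.1 x.2, map_add kbPhi α β]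
  refine kb_lt_of_le (fun h => ?_) (hP.le h1) (hQ.le h2)
  obtain ⟨h6, h7⟩ := hP.eq_of hQ h1 h2 (by rw [h.1, h.2])
  exact hne (by rw [← hx, h6, h7])

lemma KbLead.prod {ι : Type*} (s : Finset ι) (P : ι → MvPolynomial (Fin k × Fin n) ℂ)
    (α : ι → Fin k × Fin n →₀ ℕ) (h : ∀ l ∈ s, KbLead (P l) (α l)) :
    KbLead (∏ l ∈ s, P l) (∑ l ∈ s, α l) := by
  classical
  induction s using Finset.induction_on with
  | empty =>
    rw [prod_empty, sum_empty]
    exact kbLead_monomial 0
  | insert l s hl ih =>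
    rw [prod_insert hl, sum_insert hl]
    exact (h l (mem_insert_self _ _)).mul (ih fun l' hl' => h l' (mem_insert_of_mem hl'))

lemma kb_prod_X {ι : Type*} (s : Finset ι) (f : ι → Fin k × Fin n) :
    ∏ i ∈ s, (X (f i) : MvPolynomial (Fin k × Fin n) ℂ) = monomial (∑ i ∈ s, Finsupp.single (f i) 1) 1 := by
  classical
  induction s using Finset.induction_on with
  | empty => rw [prod_empty, sum_empty]; rfl
  | insert l s hl ih =>
    rw [prod_insert hl, sum_insert hl, ih]
    show monomial (Finsupp.single (f l) 1) 1 * _ = _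
    rw [monomial_mul, one_mul]

/-- The exponents of the diagonal monomial of `c : Fin n → Fin k`. -/
noncomputable def kbDiag (c : Fin n → Fin k) : Fin k × Fin n →₀ ℕ := ∑ i, Finsupp.single (c i, i) 1

lemma kbPhi_diag (c : Fin n → Fin k) : kbPhi (kbDiag c) = ∑ i : Fin n, (c i).val * i.val := by
  unfold kbDiag
  rw [map_sum kbPhi]
  exact sum_congr rfl fun i _ => kbPhi_single (c i, i)

lemma kb_minor (c : Fin n → Fin k) : minor c =
    ∑ s : Equiv.Perm (Fin n), monomial (kbDiag (c ∘ s)) ((Equiv.Perm.sign s : ℤ) : ℂ) := by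
  unfold minor
  rw [Matrix.det_apply]
  refine sum_congr rfl fun s _ => ?_
  have h : ∏ i, (Matrix.of fun i j : Fin n => (X (c i, j) : MvPolynomial (Fin k × Fin n) ℂ)) (s i) i =
      monomial (kbDiag (c ∘ s)) 1 := kb_prod_X univ fun i => (c (s i), i)
  rw [h, Units.smul_def, ← Int.cast_smul_eq_zsmul ℂ, smul_monomial, smul_eq_mul, mul_one]

lemma kb_perm_eq_one (s : Equiv.Perm (Fin n)) (h : StrictMono s) : s = 1 := by
  have h1 : (StrictMono.orderIsoOfSurjective s h s.surjective) = OrderIso.refl (Fin n) :=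
    Subsingleton.elim _ _
  ext i
  have h2 := congrArg (fun g : Fin n ≃o Fin n => g i) h1
  simpa using congrArg Fin.val h2

lemma kb_rearr (c : Fin n → Fin k) (hc : StrictMono c) (s : Equiv.Perm (Fin n)) (hs : s ≠ 1) :
    ∑ i : Fin n, (c (s i)).val * i.val < ∑ i : Fin n, (c i).val * i.val := by
  have h1 : Monovary (fun i : Fin n => ((c i).val : ℤ)) (fun i : Fin n => (i.val : ℤ)) := by
    intro i j hij
    have hij0 : (i.val : ℤ) < (j.val : ℤ) := hij
    have hij' : i < j := Fin.lt_def.2 (by exact_mod_cast hij0)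
    have h5 : (c i).val ≤ (c j).val := Fin.le_def.1 (hc hij').le
    show ((c i).val : ℤ) ≤ ((c j).val : ℤ)
    exact_mod_cast h5
  have h2 := h1.sum_comp_perm_mul_lt_sum_mul_iff (σ := s)
  have h3 : ¬ Monovary ((fun i : Fin n => ((c i).val : ℤ)) ∘ s) (fun i : Fin n => (i.val : ℤ)) := by
    intro h
    apply hs
    apply kb_perm_eq_one
    intro i j hij
    have hij0 : i.val < j.val := Fin.lt_def.1 hij
    have hij1 : (i.val : ℤ) < (j.val : ℤ) := by exact_mod_cast hij0
    have h4 : ((c (s i)).val : ℤ) ≤ ((c (s j)).val : ℤ) := h hij1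
    have h5 : c (s i) ≤ c (s j) := Fin.le_def.2 (by exact_mod_cast h4)
    have h6 : s i ≤ s j := hc.le_iff_le.1 h5
    exact lt_of_le_of_ne h6 fun h7 => hij.ne (s.injective h7)
  have h4 := h2.2 h3
  exact_mod_cast h4

lemma kbLead_minor (c : Fin n → Fin k) (hc : StrictMono c) : KbLead (minor c) (kbDiag c) := by
  classical
  have hlt : ∀ s : Equiv.Perm (Fin n), s ≠ 1 → kbPhi (kbDiag (c ∘ s)) < kbPhi (kbDiag c) := by
    intro s hs
    rw [kbPhi_diag, kbPhi_diag]
    exact kb_rearr c hc s hs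
  have hco : ∀ γ, coeff γ (minor c) = ∑ s : Equiv.Perm (Fin n),
      if kbDiag (c ∘ s) = γ then ((Equiv.Perm.sign s : ℤ) : ℂ) else 0 := by
    intro γ
    rw [kb_minor, coeff_sum]
    exact sum_congr rfl fun s _ => coeff_monomial _ _ _
  constructor
  · rw [hco, sum_eq_single 1]
    · have h1 : c ∘ ((1 : Equiv.Perm (Fin n)) : Fin n → Fin n) = c := rfl
      rw [h1, if_pos rfl]
      simp
    · intro s _ hs
      exact if_neg fun h => (hlt s hs).ne (by rw [h])
    · intro h
      exact absurd (mem_univ _) h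
  · intro γ hγ hne
    rw [hco] at hγ
    obtain ⟨s, -, h0⟩ := exists_ne_zero_of_sum_ne_zero hγ
    have h1 : kbDiag (c ∘ s) = γ := by
      by_contra h
      exact h0 (if_neg h)
    rw [← h1]
    refine hlt s fun h => hne ?_
    rw [← h1, h]
    rfl

lemma kb_diag_apply (c : Fin n → Fin k) (x : Fin k × Fin n) : kbDiag c x = if c x.2 = x.1 then 1 else 0 := by
  classical
  unfold kbDiag
  rw [Finsupp.finsetSum_apply, sum_eq_single x.2]
  · rw [Finsupp.single_apply]
    by_cases h : c x.2 = x.1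
    · have e : (c x.2, x.2) = x := Prod.ext h rfl
      rw [if_pos h, if_pos e]
    · have e : ¬ (c x.2, x.2) = x := fun e => h (congrArg Prod.fst e)
      rw [if_neg h, if_neg e]
  · intro i _ hi
    rw [Finsupp.single_apply, if_neg fun e => hi (congrArg Prod.snd e)]
  · intro h
    exact absurd (mem_univ _) h

lemma kb_sum_le {p : ℕ} (f : Fin p → Fin n → Fin k) (a : Fin k × Fin n →₀ ℕ)
    (h : ∀ x : Fin k × Fin n, Nat.card {l // f l x.2 = x.1} ≤ a x) : ∑ l, kbDiag (f l) ≤ a := by
  classical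
  intro x
  rw [Finsupp.finsetSum_apply]
  have h1 : ∑ l, kbDiag (f l) x = ∑ l, if f l x.2 = x.1 then 1 else 0 :=
    sum_congr rfl fun l _ => kb_diag_apply (f l) x
  rw [h1, sum_boole, Nat.cast_id]
  have h2 := h x
  rw [Nat.card_eq_fintype_card, Fintype.card_subtype] at h2
  exact h2

/-- The product of a monomial and the minors of `f`. -/
noncomputable def kbElt {p : ℕ} (f : Fin p → Fin n → Fin k) (a : Fin k × Fin n →₀ ℕ) :
    MvPolynomial (Fin k × Fin n) ℂ := monomial (a - ∑ l, kbDiag (f l)) 1 * ∏ l, minor (f l)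

lemma kbElt_lead {p : ℕ} (f : Fin p → Fin n → Fin k) (a : Fin k × Fin n →₀ ℕ)
    (hf : ∀ l, StrictMono (f l)) (h : ∑ l, kbDiag (f l) ≤ a) : KbLead (kbElt f a) a := by
  have h1 := (kbLead_monomial (a - ∑ l, kbDiag (f l))).mul
    (KbLead.prod univ (fun l => minor (f l)) (fun l => kbDiag (f l)) fun l _ => kbLead_minor (f l) (hf l))
  rw [tsub_add_cancel_of_le h] at h1
  exact h1

lemma kbElt_mem {p : ℕ} (f : Fin p → Fin n → Fin k) (a : Fin k × Fin n →₀ ℕ) :
    kbElt f a ∈ (minors n k) ^ p := by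
  unfold kbElt
  refine Ideal.mul_mem_left _ _ ?_
  have h1 : ∏ l : Fin p, minor (f l) ∈ ∏ _l : Fin p, minors n k :=
    Ideal.prod_mem_prod fun l _ => Ideal.subset_span ⟨f l, rfl⟩
  rwa [prod_const, card_univ, Fintype.card_fin] at h1

lemma kb_minor_wt (c : Fin n → Fin k) :
    IsWeightedHomogeneous (wt n k) (minor c) (∑ i, ((c i).val + 1)) := by
  rw [kb_minor]
  refine IsWeightedHomogeneous.sum _ _ _ fun s _ => ?_
  refine isWeightedHomogeneous_monomial _ _ _ ?_
  unfold kbDiag
  rw [map_sum]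
  have h1 : ∀ i : Fin n, Finsupp.weight (wt n k) (Finsupp.single ((c ∘ s) i, i) 1) = (c (s i)).val + 1 := by
    intro i
    rw [Finsupp.weight_single, one_smul]
    rfl
  rw [sum_congr rfl fun i _ => h1 i]
  exact Equiv.sum_comp s fun i => (c i).val + 1

lemma kb_diag_wt (c : Fin n → Fin k) : Finsupp.weight (wt n k) (kbDiag c) = ∑ i, ((c i).val + 1) := by
  unfold kbDiag
  rw [map_sum]
  refine sum_congr rfl fun i _ => ?_
  rw [Finsupp.weight_single, one_smul]
  rfl

lemma kbElt_wt {p : ℕ} (f : Fin p → Fin n → Fin k) (a : Fin k × Fin n →₀ ℕ)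
    (h : ∑ l, kbDiag (f l) ≤ a) :
    IsWeightedHomogeneous (wt n k) (kbElt f a) (Finsupp.weight (wt n k) a) := by
  have h1 : IsWeightedHomogeneous (wt n k) (monomial (a - ∑ l, kbDiag (f l)) (1 : ℂ))
      (Finsupp.weight (wt n k) (a - ∑ l, kbDiag (f l))) := isWeightedHomogeneous_monomial _ _ _ rfl
  have h2 : IsWeightedHomogeneous (wt n k) (∏ l, minor (f l))
      (∑ l, Finsupp.weight (wt n k) (kbDiag (f l))) := by
    refine IsWeightedHomogeneous.prod _ _ _ fun l _ => ?_
    rw [kb_diag_wt]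
    exact kb_minor_wt (f l)
  have h3 := h1.mul h2
  rw [← map_sum, ← map_add, tsub_add_cancel_of_le h] at h3
  exact h3

lemma kb_finite (m : ℕ) : {a : Fin k × Fin n →₀ ℕ | Finsupp.weight (wt n k) a = m}.Finite := by
  classical
  refine (Set.finite_Iic (Finsupp.equivFunOnFinite.symm fun _ : Fin k × Fin n => m)).subset fun a ha => ?_
  intro x
  show a x ≤ m
  have h0 : wt n k x ≠ 0 := by unfold Pool.Agent.H47.KB.wt; omega
  have h1 := Finsupp.le_weight (wt n k) h0 a
  have h2 : Finsupp.weight (wt n k) a = m := ha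
  rw [h2] at h1
  exact h1

instance kb_fin (m p : ℕ) : Module.Finite ℂ (good n k m p) := by
  classical
  have h0 : FiniteDimensional ℂ (Submodule.span ℂ
      ((fun a : Fin k × Fin n →₀ ℕ => (monomial a (1 : ℂ))) ''
        {a : Fin k × Fin n →₀ ℕ | Finsupp.weight (wt n k) a = m})) :=
    FiniteDimensional.span_of_finite ℂ ((kb_finite m).image _)
  refine Submodule.finiteDimensional_of_le (S₂ := Submodule.span ℂ
      ((fun a : Fin k × Fin n →₀ ℕ => (monomial a (1 : ℂ))) ''
        {a : Fin k × Fin n →₀ ℕ | Finsupp.weight (wt n k) a = m})) ?_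
  intro P hP
  have h1 : IsWeightedHomogeneous (wt n k) P m := hP.2
  rw [as_sum P]
  refine Submodule.sum_mem _ fun a ha => ?_
  have h2 : monomial a (coeff a P) = coeff a P • monomial a (1 : ℂ) := by
    rw [smul_monomial, smul_eq_mul, mul_one]
  rw [h2]
  refine Submodule.smul_mem _ _ (Submodule.subset_span ⟨a, ?_, rfl⟩)
  exact h1 (mem_support_iff.1 ha)


/-- LEAD: the monomials of weight `m` divisible by a product of `p` diagonals are at most as many as the dimension
of the polynomials of weight `m` in the `p`-th power of the ideal of the maximal minors. -/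
theorem lead (n k m p : ℕ) :
    Nat.card {a : Fin k × Fin n →₀ ℕ // Finsupp.weight (wt n k) a = m ∧
      ∃ f : Fin p → Fin n → Fin k, (∀ l, StrictMono (f l)) ∧
        ∀ x : Fin k × Fin n, Nat.card {l // f l x.2 = x.1} ≤ a x} ≤
      Module.finrank ℂ (good n k m p) := by
  classical
  have hfin : Finite {a : Fin k × Fin n →₀ ℕ // Finsupp.weight (wt n k) a = m ∧
      ∃ f : Fin p → Fin n → Fin k, (∀ l, StrictMono (f l)) ∧
        ∀ x : Fin k × Fin n, Nat.card {l // f l x.2 = x.1} ≤ a x} :=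
    ((kb_finite m).subset fun a ha => ha.1).to_subtype
  have : Fintype {a : Fin k × Fin n →₀ ℕ // Finsupp.weight (wt n k) a = m ∧
      ∃ f : Fin p → Fin n → Fin k, (∀ l, StrictMono (f l)) ∧
        ∀ x : Fin k × Fin n, Nat.card {l // f l x.2 = x.1} ≤ a x} := Fintype.ofFinite _
  choose F hF using fun a : {a : Fin k × Fin n →₀ ℕ // Finsupp.weight (wt n k) a = m ∧
      ∃ f : Fin p → Fin n → Fin k, (∀ l, StrictMono (f l)) ∧
        ∀ x : Fin k × Fin n, Nat.card {l // f l x.2 = x.1} ≤ a x} => a.2.2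
  have hle : ∀ a, ∑ l, kbDiag (F a l) ≤ a.1 := fun a => kb_sum_le (F a) a.1 (hF a).2
  have hL : ∀ a, KbLead (kbElt (F a) a.1) a.1 := fun a => kbElt_lead (F a) a.1 (hF a).1 (hle a)
  have hmem : ∀ a, kbElt (F a) a.1 ∈ good n k m p := by
    intro a
    refine ⟨kbElt_mem (F a) a.1, ?_⟩
    have h1 := kbElt_wt (F a) a.1 (hle a)
    rw [a.2.1] at h1
    exact h1
  have hind : LinearIndependent ℂ (fun a => (⟨kbElt (F a) a.1, hmem a⟩ : good n k m p)) := by
    rw [Fintype.linearIndependent_iff]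
    intro g hg
    by_contra hne
    push Not at hne
    obtain ⟨a₀, ha₀⟩ := hne
    obtain ⟨a, ha, hmax⟩ := exists_max_image (univ.filter fun a => g a ≠ 0) (fun a => kbPhi a.1)
      ⟨a₀, mem_filter.2 ⟨mem_univ _, ha₀⟩⟩
    have hga : g a ≠ 0 := (mem_filter.1 ha).2
    have h1 : ∑ b, g b • kbElt (F b) b.1 = 0 := by
      have h2 := congrArg (good n k m p).subtype hg
      rw [map_sum, map_zero] at h2
      rw [← h2]
      exact sum_congr rfl fun b _ => rfl
    have h2 : coeff a.1 (∑ b, g b • kbElt (F b) b.1) = 0 := by rw [h1, coeff_zero]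
    rw [coeff_sum, sum_eq_single a] at h2
    · rw [coeff_smul, (hL a).1, smul_eq_mul, mul_one] at h2
      exact hga h2
    · intro b _ hba
      rw [coeff_smul, smul_eq_mul]
      by_cases hgb : g b = 0
      · rw [hgb, zero_mul]
      · by_cases hc : coeff a.1 (kbElt (F b) b.1) = 0
        · rw [hc, mul_zero]
        · have h3 := (hL b).2 a.1 hc fun e => hba (Subtype.ext e.symm)
          have h4 := hmax b (mem_filter.2 ⟨mem_univ _, hgb⟩)
          exact absurd h4 (not_le.2 h3)
    · intro h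
      exact absurd (mem_univ _) h
  have h5 := hind.fintype_card_le_finrank
  rwa [Nat.card_eq_fintype_card]

end Pool.Agent.H23.KB
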